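import Mathlib
import Pool.Agent.H5.EG.Spec2

set_option autoImplicit false

/-!
# Exponential sums satisfy no differential equation of small order
-/

namespace Pool.Agent.H349.EG

open Polynomial Pool.Agent.H5.EG

/-- expansion in falling factorials -/
theorem exists_desc (n : ℕ) : ∀ A : ℝ[X], A.degree < (n : ℕ) → ∃ α : ℕ → ℝ,
    A = ∑ j ∈ Finset.range n, C (α j) * descPochhammer ℝ j := by
  induction n with
  | zero =>
    intro A hA
    refine ⟨0, ?_⟩
    rw [Finset.range_zero, Finset.sum_empty]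
    by_contra h
    have := (zero_le_degree_iff.2 h)
    exact absurd (lt_of_le_of_lt this hA) (by simp)
  | succ n ih =>
    intro A hA
    rw [degree_lt_iff_coeff_zero] at hA
    have h1 : (A - C (A.coeff n) * descPochhammer ℝ n).degree < (n : ℕ) := by
      rw [degree_lt_iff_coeff_zero]
      intro m hm
      rw [coeff_sub, coeff_C_mul]
      rcases Nat.lt_or_ge n m with h | h
      · rw [hA m h, coeff_eq_zero_of_natDegree_lt (p := descPochhammer ℝ n)
          (by rw [descPochhammer_natDegree]; exact h)]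
        ring
      · have : m = n := le_antisymm h hm
        subst this
        have h2 : (descPochhammer ℝ m).coeff m = 1 := by
          have h3 := (monic_descPochhammer ℝ m).coeff_natDegree
          rwa [descPochhammer_natDegree] at h3
        rw [h2]
        ring
    obtain ⟨α, hα⟩ := ih _ h1
    refine ⟨fun j => if j = n then A.coeff n else α j, ?_⟩
    rw [Finset.sum_range_succ]
    beta_reduce
    rw [if_pos rfl]
    have h3 : ∑ j ∈ Finset.range n, C (if j = n then A.coeff n else α j) * descPochhammer ℝ j =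
        ∑ j ∈ Finset.range n, C (α j) * descPochhammer ℝ j := by
      refine Finset.sum_congr rfl fun j hj => ?_
      rw [if_neg (Finset.mem_range.1 hj).ne]
    rw [h3, ← hα]
    ring

/-- the functional `∑ α k j μ^j p^(k+j) (μ)` -/
noncomputable def Phi {K : ℕ} (B : ℕ) (α : Fin (K + 1) → ℕ → ℝ) (μ : ℝ) (p : ℝ[X]) : ℝ :=
  ∑ k : Fin (K + 1), ∑ j ∈ Finset.range (B + 1),
    α k j * μ ^ j * (derivative^[(k : ℕ) + j] p).eval μ

/-- its symbol -/
noncomputable def Sy {K : ℕ} (B : ℕ) (α : Fin (K + 1) → ℕ → ℝ) (μ : ℝ) : ℝ[X] :=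
  ∑ k : Fin (K + 1), ∑ j ∈ Finset.range (B + 1), monomial ((k : ℕ) + j) (α k j * μ ^ j)

theorem coeff_Sy {K : ℕ} (B : ℕ) (α : Fin (K + 1) → ℕ → ℝ) (μ : ℝ) (e : ℕ) :
    (Sy B α μ).coeff e = ∑ k : Fin (K + 1), ∑ j ∈ Finset.range (B + 1),
      if (k : ℕ) + j = e then α k j * μ ^ j else 0 := by
  unfold Sy
  rw [finsetSum_coeff]
  refine Finset.sum_congr rfl fun k _ => ?_
  rw [finsetSum_coeff]
  refine Finset.sum_congr rfl fun j _ => ?_
  rw [coeff_monomial]

theorem Phi_eq {K : ℕ} (B : ℕ) (α : Fin (K + 1) → ℕ → ℝ) (μ : ℝ) (p : ℝ[X]) :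
    Phi B α μ p = ∑ e ∈ Finset.range (K + B + 1),
      (Sy B α μ).coeff e * (derivative^[e] p).eval μ := by
  simp only [coeff_Sy, Finset.sum_mul]
  rw [Finset.sum_comm]
  unfold Phi
  refine Finset.sum_congr rfl fun k _ => ?_
  rw [Finset.sum_comm]
  refine Finset.sum_congr rfl fun j hj => ?_
  have hj' := Finset.mem_range.1 hj
  have hk := k.2
  rw [Finset.sum_eq_single ((k : ℕ) + j)]
  · rw [if_pos rfl]
  · intro e _ he
    rw [if_neg (Ne.symm he), zero_mul]
  · intro h
    exact absurd (Finset.mem_range.2 (by omega)) h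

theorem Phi_add {K : ℕ} (B : ℕ) (α : Fin (K + 1) → ℕ → ℝ) (μ : ℝ) (p q : ℝ[X]) :
    Phi B α μ (p + q) = Phi B α μ p + Phi B α μ q := by
  unfold Phi
  simp only [iterate_map_add, eval_add, mul_add, Finset.sum_add_distrib]

theorem Phi_C_mul {K : ℕ} (B : ℕ) (α : Fin (K + 1) → ℕ → ℝ) (μ : ℝ) (c : ℝ) (p : ℝ[X]) :
    Phi B α μ (C c * p) = c * Phi B α μ p := by
  unfold Phi
  simp only [iterate_derivative_C_mul, eval_mul, eval_C, Finset.mul_sum]
  refine Finset.sum_congr rfl fun k _ => Finset.sum_congr rfl fun j _ => ?_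
  ring

/-- value at the monomials -/
theorem Phi_X_pow {K : ℕ} (B : ℕ) (α : Fin (K + 1) → ℕ → ℝ) (μ : ℝ) (N : ℕ) :
    Phi B α μ (X ^ N) = ∑ k : Fin (K + 1), if (k : ℕ) ≤ N then
      (N.descFactorial k : ℝ) * (∑ j ∈ Finset.range (B + 1), C (α k j) *
        descPochhammer ℝ j).eval (((N - k : ℕ) : ℝ)) * μ ^ (N - k) else 0 := by
  unfold Phi
  refine Finset.sum_congr rfl fun k _ => ?_
  have h0 : ∀ j, (derivative^[(k : ℕ) + j] (X ^ N : ℝ[X])).eval μ =
      (N.descFactorial (k + j) : ℝ) * μ ^ (N - (k + j)) := by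
    intro j
    rw [iterate_derivative_X_pow_eq_C_mul, eval_mul, eval_C, eval_pow, eval_X]
  simp only [h0]
  split_ifs with hk
  · rw [eval_finsetSum, Finset.mul_sum, Finset.sum_mul]
    refine Finset.sum_congr rfl fun j _ => ?_
    rw [eval_mul, eval_C, descPochhammer_eval_eq_descFactorial]
    have h1 : N.descFactorial (k + j) = N.descFactorial k * (N - k).descFactorial j := by
      rw [← Nat.descFactorial_mul_descFactorial (Nat.le_add_right (k : ℕ) j),
        Nat.add_sub_cancel_left, mul_comm]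
    rw [h1]
    push_cast
    rcases Nat.lt_or_ge (N - k) j with h | h
    · rw [Nat.descFactorial_eq_zero_iff_lt.2 h]
      simp
    · have h2 : N - k = j + (N - (k + j)) := by omega
      rw [h2, pow_add]
      have h3 : j + (N - (↑k + j)) = N - k := by omega
      rw [h3]
      ring
  · refine Finset.sum_eq_zero fun j _ => ?_
    rw [Nat.descFactorial_eq_zero_iff_lt.2 (by omega)]
    simp

/-- the nodes -/
noncomputable def nu (m s : ℕ) : ℝ := -2 * ((s : ℝ) * ((m : ℝ) - s))

theorem FL_eq (m l : ℕ) : FL m l * (2 ^ m * (l.factorial : ℝ)) =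
    ∑ s ∈ Finset.range (m + 1), (m.choose s : ℝ) * nu m s ^ l := by
  unfold FL nu
  have h : (2 : ℝ) ^ m * (l.factorial : ℝ) ≠ 0 :=
    mul_ne_zero (by positivity) (by exact_mod_cast l.factorial_ne_zero)
  rw [div_mul_cancel₀ _ h]

theorem nu_inj {m B : ℕ} (h : 2 * B + 2 ≤ m) {s t : ℕ} (hs : s ≤ B) (ht : t ≤ B)
    (he : nu m s = nu m t) : s = t := by
  unfold nu at he
  have h1 : ((s : ℝ) - t) * ((m : ℝ) - t - s) = 0 := by linear_combination (-1 / 2 : ℝ) * he
  rcases mul_eq_zero.1 h1 with h2 | h2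
  · exact_mod_cast sub_eq_zero.1 h2
  · exfalso
    have h3 : (m : ℝ) = ((t + s : ℕ) : ℝ) := by push_cast; linarith
    have h4 : m = t + s := by exact_mod_cast h3
    omega

section tot
variable {K B m : ℕ} {α : Fin (K + 1) → ℕ → ℝ}

theorem tot_zero (h : ∀ N : ℕ, ∑ s ∈ Finset.range (m + 1), (m.choose s : ℝ) *
    Phi B α (nu m s) (X ^ N) = 0) (p : ℝ[X]) :
    ∑ s ∈ Finset.range (m + 1), (m.choose s : ℝ) * Phi B α (nu m s) p = 0 := by
  induction p using Polynomial.induction_on' with
  | add p q hp hq =>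
    simp only [Phi_add, mul_add, Finset.sum_add_distrib]
    rw [hp, hq, add_zero]
  | monomial n a =>
    rw [← C_mul_X_pow_eq_monomial]
    simp only [Phi_C_mul]
    have h1 : ∀ s ∈ Finset.range (m + 1), (m.choose s : ℝ) * (a * Phi B α (nu m s) (X ^ n)) =
        a * ((m.choose s : ℝ) * Phi B α (nu m s) (X ^ n)) := fun s _ => by ring
    rw [Finset.sum_congr rfl h1, ← Finset.mul_sum, h n, mul_zero]

theorem sy_zero (h : ∀ p : ℝ[X], ∑ s ∈ Finset.range (m + 1), (m.choose s : ℝ) *
    Phi B α (nu m s) p = 0) {t : ℕ} (ht : t ≤ m) : Sy B α (nu m t) = 0 := by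
  classical
  by_contra hne
  set μ := nu m t with hμ
  set e0 := (Sy B α μ).natDegree with he0
  set L := K + B + 1 with hL
  have hlc : (Sy B α μ).coeff e0 ≠ 0 := by
    rw [he0]
    exact leadingCoeff_ne_zero.2 hne
  have he0L : e0 < L := by
    by_contra hge
    apply hlc
    rw [coeff_Sy]
    refine Finset.sum_eq_zero fun k _ => Finset.sum_eq_zero fun j hj => ?_
    have hj' := Finset.mem_range.1 hj
    have hk := k.2
    rw [if_neg (by omega)]
  let R : ℝ[X] := ∏ s ∈ (Finset.range (m + 1)).filter (fun s => nu m s ≠ μ),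
    (X - C (nu m s)) ^ L
  have hR : R.eval μ ≠ 0 := by
    rw [eval_prod, Finset.prod_ne_zero_iff]
    intro s hs
    rw [eval_pow, eval_sub, eval_X, eval_C]
    exact pow_ne_zero _ (sub_ne_zero.2 (Ne.symm (Finset.mem_filter.1 hs).2))
  have hR0 : R ≠ 0 := by
    rintro h0
    rw [h0, eval_zero] at hR
    exact hR rfl
  let p : ℝ[X] := R * (X - C μ) ^ e0
  have hp0 : p ≠ 0 := mul_ne_zero hR0 (pow_ne_zero _ (X_sub_C_ne_zero μ))
  have hmult : p.rootMultiplicity μ = e0 := by
    rw [rootMultiplicity_mul_X_sub_C_pow hR0, rootMultiplicity_eq_zero (by exact hR), zero_add]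
  have hval : (derivative^[e0] p).eval μ ≠ 0 := by
    have h1 := eval_iterate_derivative_rootMultiplicity (p := p) (t := μ)
    rw [hmult] at h1
    rw [h1, nsmul_eq_mul]
    refine mul_ne_zero (by exact_mod_cast e0.factorial_ne_zero) ?_
    have h2 := eval_divByMonic_pow_rootMultiplicity_ne_zero μ hp0
    rwa [hmult] at h2
  have hlow : ∀ e < e0, (derivative^[e] p).eval μ = 0 := by
    intro e he
    exact isRoot_iterate_derivative_of_lt_rootMultiplicity (by rw [hmult]; exact he)
  have hv : Phi B α μ p = (Sy B α μ).coeff e0 * (derivative^[e0] p).eval μ := by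
    rw [Phi_eq, Finset.sum_eq_single e0]
    · intro e _ hee
      rcases lt_or_gt_of_ne hee with h1 | h1
      · rw [hlow e h1, mul_zero]
      · rw [coeff_eq_zero_of_natDegree_lt (by exact h1), zero_mul]
    · intro h1
      exact absurd (Finset.mem_range.2 he0L) h1
  have hv0 : Phi B α μ p ≠ 0 := by
    rw [hv]
    exact mul_ne_zero hlc hval
  have hother : ∀ s ∈ Finset.range (m + 1), nu m s ≠ μ → Phi B α (nu m s) p = 0 := by
    intro s hs hsμ
    unfold Phi
    refine Finset.sum_eq_zero fun k _ => Finset.sum_eq_zero fun j hj => ?_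
    have hj' := Finset.mem_range.1 hj
    have hk := k.2
    have hd : (X - C (nu m s)) ^ L ∣ p :=
      Dvd.dvd.mul_right (Finset.dvd_prod_of_mem (fun s => (X - C (nu m s)) ^ L)
        (Finset.mem_filter.2 ⟨hs, hsμ⟩)) _
    have hd2 := pow_sub_dvd_iterate_derivative_of_pow_dvd ((k : ℕ) + j) hd
    have hd3 : (X - C (nu m s)) ∣ derivative^[(k : ℕ) + j] p :=
      dvd_trans (dvd_pow_self _ (by omega)) hd2
    have : (derivative^[(k : ℕ) + j] p).eval (nu m s) = 0 := dvd_iff_isRoot.1 hd3
    rw [this, mul_zero]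
  have hsum := h p
  have h2 : ∑ s ∈ Finset.range (m + 1), (m.choose s : ℝ) * Phi B α (nu m s) p =
      (∑ s ∈ (Finset.range (m + 1)).filter (fun s => nu m s = μ), (m.choose s : ℝ)) *
        Phi B α μ p := by
    rw [Finset.sum_mul, Finset.sum_filter]
    refine Finset.sum_congr rfl fun s hs => ?_
    split_ifs with h3
    · rw [h3]
    · rw [hother s hs h3, mul_zero]
  rw [h2] at hsum
  have hpos : 0 < ∑ s ∈ (Finset.range (m + 1)).filter (fun s => nu m s = μ),
      (m.choose s : ℝ) := by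
    refine Finset.sum_pos' (fun s _ => Nat.cast_nonneg _) ⟨t, ?_, ?_⟩
    · exact Finset.mem_filter.2 ⟨Finset.mem_range.2 (by omega), rfl⟩
    · exact_mod_cast Nat.choose_pos ht
  exact (mul_ne_zero hpos.ne' hv0) hsum

theorem alpha_zero (hm : 2 * B + 2 ≤ m) (h : ∀ t ≤ B, Sy B α (nu m t) = 0) (k0 : Fin (K + 1))
    {j0 : ℕ} (hj0 : j0 ≤ B) : α k0 j0 = 0 := by
  classical
  set e := (k0 : ℕ) + j0 with he
  let β : ℕ → ℝ := fun j => ∑ k : Fin (K + 1), if (k : ℕ) + j = e then α k j else 0
  let P : ℝ[X] := ∑ j ∈ Finset.range (B + 1), C (β j) * X ^ j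
  have hcoeff : ∀ j, P.coeff j = if j < B + 1 then β j else 0 := by
    intro j
    simp only [P, finsetSum_coeff, coeff_C_mul_X_pow]
    rw [Finset.sum_ite_eq]
    simp only [Finset.mem_range]
  have hP : P = 0 := by
    refine eq_zero_of_degree_lt_of_eval_index_eq_zero (v := nu m) (Finset.range (B + 1)) ?_ ?_ ?_
    · intro s hs t ht hst
      exact nu_inj hm (by simpa [Nat.lt_succ_iff] using hs) (by simpa [Nat.lt_succ_iff] using ht) hst
    · rw [Finset.card_range, degree_lt_iff_coeff_zero]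
      intro j hj
      rw [hcoeff, if_neg (by omega)]
    · intro t ht
      have h1 := congrArg (fun q : ℝ[X] => q.coeff e) (h t (Nat.lt_succ_iff.1 (Finset.mem_range.1 ht)))
      simp only [coeff_Sy, coeff_zero] at h1
      rw [Finset.sum_comm] at h1
      rw [eval_finsetSum, ← h1]
      refine Finset.sum_congr rfl fun j _ => ?_
      rw [eval_mul, eval_C, eval_pow, eval_X, Finset.sum_mul]
      refine Finset.sum_congr rfl fun k _ => ?_
      split_ifs
      · rfl
      · rw [zero_mul]
  have h2 := hcoeff j0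
  rw [hP, coeff_zero, if_pos (by omega)] at h2
  have h3 : β j0 = α k0 j0 := by
    simp only [β]
    rw [Finset.sum_eq_single k0]
    · rw [if_pos he.symm]
    · intro k _ hk
      rw [if_neg]
      intro h4
      apply hk
      apply Fin.ext
      omega
    · intro h4
      exact absurd (Finset.mem_univ _) h4
  rw [← h3, ← h2]

end tot

theorem inj : S_inj := by
  classical
  intro B m K hm a hyp
  let A : Fin (K + 1) → ℝ[X] := fun k => ∑ i : Fin (B + 1), C (a i k) * X ^ (i : ℕ)
  have hAc : ∀ k j, (A k).coeff j = if h : j < B + 1 then a ⟨j, h⟩ k else 0 := by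
    intro k j
    simp only [A, finsetSum_coeff, coeff_C_mul_X_pow]
    split_ifs with h
    · rw [Finset.sum_eq_single (⟨j, h⟩ : Fin (B + 1))]
      · simp
      · intro i _ hi
        rw [if_neg]
        intro h2
        exact hi (Fin.ext h2.symm)
      · intro h2
        exact absurd (Finset.mem_univ _) h2
    · refine Finset.sum_eq_zero fun i _ => ?_
      rw [if_neg]
      intro h2
      exact h (h2 ▸ i.2)
  have hAdeg : ∀ k, (A k).degree < ((B + 1 : ℕ) : WithBot ℕ) := by
    intro k
    rw [degree_lt_iff_coeff_zero]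
    intro j hj
    rw [hAc, dif_neg (by omega)]
  choose α hα using fun k => exists_desc (B + 1) (A k) (hAdeg k)
  have htot : ∀ N : ℕ, ∑ s ∈ Finset.range (m + 1), (m.choose s : ℝ) *
      Phi B α (nu m s) (X ^ N) = 0 := by
    intro N
    have h1 := hyp N
    rw [Finset.sum_comm] at h1
    have h2 : ∑ s ∈ Finset.range (m + 1), (m.choose s : ℝ) * Phi B α (nu m s) (X ^ N) =
        (2 ^ m * (N.factorial : ℝ)) * ∑ k : Fin (K + 1), ∑ i : Fin (B + 1),
          (if (k : ℕ) ≤ N then a i k * ((N - k : ℕ) : ℝ) ^ (i : ℕ) * FL m (N - k) else 0) := by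
      simp only [Phi_X_pow, ← hα, Finset.mul_sum]
      rw [Finset.sum_comm]
      refine Finset.sum_congr rfl fun k _ => ?_
      split_ifs with hk
      · have h3 : ∀ s ∈ Finset.range (m + 1), (m.choose s : ℝ) *
            ((N.descFactorial k : ℝ) * (A k).eval (((N - k : ℕ) : ℝ)) * nu m s ^ (N - k)) =
            (N.descFactorial k : ℝ) * (A k).eval (((N - k : ℕ) : ℝ)) *
              ((m.choose s : ℝ) * nu m s ^ (N - k)) := fun s _ => by ring
        rw [Finset.sum_congr rfl h3, ← Finset.mul_sum, ← FL_eq]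
        have h4 : (N.factorial : ℝ) = ((N - k).factorial : ℝ) * (N.descFactorial k : ℝ) := by
          exact_mod_cast (Nat.factorial_mul_descFactorial hk).symm
        have h5 : (A k).eval (((N - k : ℕ) : ℝ)) =
            ∑ i : Fin (B + 1), a i k * ((N - k : ℕ) : ℝ) ^ (i : ℕ) := by
          simp only [A, eval_finsetSum, eval_mul, eval_C, eval_pow, eval_X]
        rw [h5, h4, Finset.mul_sum, Finset.sum_mul]
        refine Finset.sum_congr rfl fun i _ => ?_
        ring
      · simp
    rw [h2, h1, mul_zero]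
  have hsy : ∀ t ≤ B, Sy B α (nu m t) = 0 := fun t ht =>
    sy_zero (tot_zero htot) (by omega)
  intro i k
  have hA0 : A k = 0 := by
    rw [hα k]
    refine Finset.sum_eq_zero fun j hj => ?_
    rw [alpha_zero hm hsy k (Nat.lt_succ_iff.1 (Finset.mem_range.1 hj)), C_0, zero_mul]
  have h1 := hAc k i
  rw [hA0, coeff_zero, dif_pos i.2] at h1
  exact h1.symm

end Pool.Agent.H349.EG
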